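import Mathlib
import Pool.Agent.Y234.EM.Top

/-!
# Smoothability defects along filtrations

Let `a 0 ⊇ a 1 ⊇ ⋯` be ideals of finite colength in `k[x_1, …, x_v]` with `a i * a j ⊆ a (i + j)`
(for example the powers of an ideal, their integral closures, the valuation ideals
`{f | ν f ≥ N}`), and `Γ_N` the subscheme of affine `v`-space defined by `a N`. If `deg Γ_N` grows
like `N ^ v` then `δ(Γ_N) / deg Γ_N` tends to `0`, and uniformly in `n` the power `Γ_N^n` lies in a
smoothable scheme of degree at most `((1 + η) deg Γ_N)^n` as soon as `N` is large.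
-/

set_option autoImplicit false

namespace Pool.Agent.Results.MP_44217d_ag.Filtrations

open Pool.Agent.H826R3.SM Filter Topology

/-- The degree of the subscheme of affine `v`-space defined by the ideal `J`. -/
noncomputable def deg {k : Type} [Field k] {v : ℕ} (J : Ideal (MvPolynomial (Fin v) k)) : ℕ :=
  Module.finrank k (MvPolynomial (Fin v) k ⧸ J)

/-- The smoothability defect of the `n`-th power of the subscheme of affine `v`-space defined by the
ideal `J`. -/
noncomputable def dfc {k : Type} [Field k] {v : ℕ} (J : Ideal (MvPolynomial (Fin v) k)) (n : ℕ) :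
    ℕ :=
  defect k (Pow k (MvPolynomial (Fin v) k ⧸ J) n)

/-- The infimum of `deg Γ_N / N ^ v` over `N ≥ 1`. -/
noncomputable def volume {k : Type} [Field k] {v : ℕ} (a : ℕ → Ideal (MvPolynomial (Fin v) k)) :
    ℝ :=
  ⨅ N : ℕ, (deg (a (N + 1)) : ℝ) / ((N + 1 : ℕ) : ℝ) ^ v

/-- `k` is algebraically closed, `a N` a decreasing multiplicative filtration by ideals of finite
colength of the polynomial ring in `v` variables. Then `deg Γ_N / N ^ v` tends to its infimum, the
volume, and so does `(deg Γ_N + δ(Γ_N)) / N ^ v`: for every `η > 0` and all large `N`, uniformly in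
`n`, `(deg Γ_N) ^ n + δ(Γ_N^n) ≤ ((volume + η) N ^ v) ^ n`. If the volume is positive then
`δ(Γ_N) / deg Γ_N` tends to `0`, and for every `η > 0` and all large `N`, uniformly in `n`,
`(deg Γ_N) ^ n + δ(Γ_N^n) ≤ ((1 + η) deg Γ_N) ^ n`. -/
theorem result (k : Type) [Field k] [IsAlgClosed k] (v : ℕ)
    (a : ℕ → Ideal (MvPolynomial (Fin v) k))
    (hfin : ∀ N, Module.Finite k (MvPolynomial (Fin v) k ⧸ a N))
    (hanti : ∀ i j, i ≤ j → a j ≤ a i) (hmul : ∀ i j, a i * a j ≤ a (i + j)) :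
    Tendsto (fun N : ℕ => (deg (a N) : ℝ) / (N : ℝ) ^ v) atTop (𝓝 (volume a)) ∧
    (∀ η : ℝ, 0 < η → ∀ᶠ N : ℕ in atTop, ∀ n : ℕ,
      (deg (a N) : ℝ) ^ n + dfc (a N) n ≤ ((volume a + η) * (N : ℝ) ^ v) ^ n) ∧
    (0 < volume a →
      Tendsto (fun N : ℕ => (defect k (MvPolynomial (Fin v) k ⧸ a N) : ℝ) / (deg (a N) : ℝ))
        atTop (𝓝 0) ∧
      ∀ η : ℝ, 0 < η → ∀ᶠ N : ℕ in atTop, ∀ n : ℕ,
        (deg (a N) : ℝ) ^ n + dfc (a N) n ≤ ((1 + η) * deg (a N)) ^ n) :=
  Pool.Agent.Y234.EM.filt Pool.Agent.Y232.EM.pow Pool.Agent.Y234.EM.main_ k v a hfin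
    (fun i j h => hanti i j h) hmul

end Pool.Agent.Results.MP_44217d_ag.Filtrations
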