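import Mathlib
import Pool.Agent.Y234.EM.Top

/-!
# Smoothability defects of finite schemes of fixed embedding dimension

Every finite subscheme `Γ` of affine `v`-space lies in a finite smoothable scheme of degree at most
`v! deg Γ`. Hence `deg (Γ^n) + δ(Γ^n) ≤ (v! deg Γ)^n`, and for every `ε` the limit of Q1 holds for
all `Γ` in affine `v`-space with `v! < (deg Γ)^ε`, that is, for all `Γ` of degree greater than
`(v!)^{1/ε}`.

Proof: an elementary form of Lech's inequality, reductions of ideals by monic complete
intersections, pullback of point configurations in general position, and lifting of idempotents.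
-/

set_option autoImplicit false

namespace Pool.Agent.Results.MP_44217d_ag.FixedEmbeddingDimension

open Pool.Agent.H826R3.SM Filter Topology

/-- `k` is algebraically closed, `A` is a nonzero finite-dimensional commutative `k`-algebra
generated by `v` elements (`Spec A` is a closed subscheme of affine `v`-space); `defect k A` is the
smoothability defect of `Spec A` and `Pow k A n` the coordinate ring of `(Spec A)^n`. -/
theorem result (k : Type) [Field k] [IsAlgClosed k] (v : ℕ) (A : Type) [CommRing A] [Algebra k A]
    [Module.Finite k A] [Nontrivial A] (a : Fin v → A)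
    (ha : Algebra.adjoin k (Set.range a) = ⊤) :
    (∀ n : ℕ, Module.finrank k A ^ n + defect k (Pow k A n) ≤
      (v.factorial * Module.finrank k A) ^ n) ∧
    ∀ ε : ℝ, (v.factorial : ℝ) < (Module.finrank k A : ℝ) ^ ε →
      Tendsto (fun n : ℕ => (defect k (Pow k A n) : ℝ) /
        (Module.finrank k A : ℝ) ^ ((1 + ε) * (n : ℝ))) atTop (𝓝 0) :=
  ⟨fun n => Pool.Agent.Y234.EM.fixed_bound Pool.Agent.Y234.EM.main_ Pool.Agent.Y232.EM.pow
      k A v a ha n,
    fun ε hε => Pool.Agent.Y234.EM.fixed_lim Pool.Agent.Y234.EM.main_ Pool.Agent.Y232.EM.pow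
      k A v a ha ε hε⟩

end Pool.Agent.Results.MP_44217d_ag.FixedEmbeddingDimension
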